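import Pool.Agent.X14.DombParity

set_option autoImplicit false

namespace Pool.Agent.Results.MP_4af00a_nt.IntegralityParity

open Finset

/-- `s_n = ∑_{k=0}^n C(n,k)^2 C(2k,k) C(2(n-k),n-k)` -/
def s (n : ℕ) : ℕ := ∑ k ∈ range (n + 1), n.choose k ^ 2 * (2 * k).choose k * (2 * (n - k)).choose (n - k)

/-- `a_m = 1/(2 m^3 (m-1)) ∑_{n=0}^{m-1} (3n^2+n) 16^{m-1-n} s_n` -/
def a (m : ℕ) : ℚ :=
  1 / (2 * (m : ℚ) ^ 3 * ((m : ℚ) - 1)) * ∑ n ∈ range m, (3 * (n : ℚ) ^ 2 + n) * 16 ^ (m - 1 - n) * (s n : ℚ)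

/-- **Q2.** For every integer `m > 1`, `a_m` is an integer, and it is odd if and only if `m` is a power
of `2`. -/
theorem result : ∀ m : ℕ, 1 < m → ∃ z : ℤ, a m = (z : ℚ) ∧ (Odd z ↔ ∃ k : ℕ, m = 2 ^ k) := by
  intro m hm
  obtain ⟨n, rfl⟩ : ∃ n, m = n + 1 := ⟨m - 1, by omega⟩
  obtain ⟨z, hz, hodd⟩ := Pool.Agent.X14.Domb.main n (by omega)
  refine ⟨z, ?_, hodd⟩
  have ht := Pool.Agent.X14.Domb.tele n
  rw [hz] at ht
  have ht2 : (6 : ℚ) * ∑ k ∈ range (n + 1), (3 * (k : ℚ) ^ 2 + k) * 16 ^ (n - k) * (s k : ℚ) =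
      ((n : ℚ) + 1) ^ 3 * (12 * n * z) := by
    have : ((6 * ∑ k ∈ range (n + 1), (3 * (k : ℤ) ^ 2 + k) * 16 ^ (n - k) * Pool.Agent.X14.Domb.s k : ℤ) : ℚ) =
        ((((n : ℤ) + 1) ^ 3 * (12 * n * z) : ℤ) : ℚ) := by rw [ht]
    push_cast at this
    exact this
  unfold a
  rw [Nat.add_sub_cancel]
  have hn : (n : ℚ) ≠ 0 := by
    have : 0 < n := by omega
    positivity
  have hn1 : (n : ℚ) + 1 ≠ 0 := by positivity
  have e : ∑ k ∈ range (n + 1), (3 * (k : ℚ) ^ 2 + k) * 16 ^ (n - k) * (s k : ℚ) =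
      2 * ((n : ℚ) + 1) ^ 3 * n * z := by linarith
  rw [e]
  push_cast
  rw [add_sub_cancel_right]
  field_simp

end Pool.Agent.Results.MP_4af00a_nt.IntegralityParity
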